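import Pool.Agent.H62.N6.Defs

/-! MODULE H/Low (about 90 lines).  Lower bound for the Hilbert function.
`δ ≥ 1` a bound for the degrees of the `y i`.  The classes of `y^α`, `|α| ≤ D/δ`, are linearly independent and have degree
`≤ D`; their number is `(D/δ + s).choose s ≥ (D/δ + 1)^s / s!` and `δ (D/δ + 1) ≥ D + 1`.
(Number of monomials: Pool/Agent/H34/NA/Count.lean `finrank_restrictTotalDegree`; better: the linear map
`restrictTotalDegree (Fin s) k (D/δ) → VI`, `q ↦ mk (aeval y q)`, is injective.) -/

set_option autoImplicit false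

open MvPolynomial

namespace Pool.Agent.H62.N6

variable {k : Type} [Field k] {σ : Type} [Fintype σ]

theorem lower_of_indep (I : Ideal (MvPolynomial σ k)) {s : ℕ} (y : Fin s → MvPolynomial σ k)
    (hy : AlgebraicIndependent k (fun i => Ideal.Quotient.mk I (y i))) :
    ∃ c : ℝ, 0 < c ∧ ∀ D : ℕ, c * ((D : ℝ) + 1) ^ s ≤ (hF I D : ℝ) := by
  classical
  set δ : ℕ := 1 + ∑ j, (y j).totalDegree with hδ
  have hδ0 : 0 < δ := by omega
  have hδr : (0 : ℝ) < (δ : ℝ) := by exact_mod_cast hδ0
  refine ⟨(1 / (δ : ℝ)) ^ s, by positivity, fun D => ?_⟩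
  set n : ℕ := D / δ with hn
  set W := (restrictTotalDegree σ k D).map (Ideal.Quotient.mkₐ k I).toLinearMap with hW
  -- the exponents
  set m : (Fin s → Fin (n + 1)) → (Fin s →₀ ℕ) := fun β =>
    Finsupp.equivFunOnFinite.symm fun j => (β j : ℕ) with hm
  have hminj : Function.Injective m := by
    intro β β' h
    funext j
    have := DFunLike.congr_fun h j
    exact Fin.ext this
  have hval : ∀ β : Fin s →₀ ℕ,
      aeval (fun i => Ideal.Quotient.mk I (y i)) (monomial β (1 : k)) =
        Ideal.Quotient.mk I (∏ j, y j ^ β j) := by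
    intro β
    rw [monomial_eq, map_mul, C_1, map_one, one_mul, Finsupp.prod_fintype _ _ fun _ => pow_zero _,
      map_prod, map_prod]
    refine Finset.prod_congr rfl fun j _ => ?_
    rw [map_pow, aeval_X, map_pow]
  have hli : LinearIndependent k (fun β : Fin s →₀ ℕ =>
      Ideal.Quotient.mk I (∏ j, y j ^ β j)) := by
    have h1 := (basisMonomials (Fin s) k).linearIndependent
    have h2 := h1.map' (aeval (R := k) (fun i => Ideal.Quotient.mk I (y i))).toLinearMap
      (LinearMap.ker_eq_bot.2 hy)
    have h3 : ((aeval (R := k) (fun i => Ideal.Quotient.mk I (y i))).toLinearMap ∘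
        (basisMonomials (Fin s) k)) = fun β : Fin s →₀ ℕ =>
      Ideal.Quotient.mk I (∏ j, y j ^ β j) := by
      funext β
      rw [Function.comp_apply, coe_basisMonomials, ← hval β]
      rfl
    rwa [h3] at h2
  have hli2 := hli.comp m hminj
  have hmem : ∀ β : Fin s → Fin (n + 1),
      Ideal.Quotient.mk I (∏ j, y j ^ (m β) j) ∈ W := by
    intro β
    refine Submodule.mem_map.2 ⟨∏ j, y j ^ (m β) j, ?_, rfl⟩
    rw [mem_restrictTotalDegree]
    calc (∏ j, y j ^ (m β) j).totalDegree ≤ ∑ j, (y j ^ (m β) j).totalDegree :=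
          totalDegree_finsetProd _ _
      _ ≤ ∑ j, n * (y j).totalDegree := by
          refine Finset.sum_le_sum fun j _ => ?_
          refine (totalDegree_pow _ _).trans (Nat.mul_le_mul_right _ ?_)
          have := (β j).2
          change (β j : ℕ) ≤ n
          omega
      _ = n * ∑ j, (y j).totalDegree := by rw [Finset.mul_sum]
      _ ≤ n * δ := Nat.mul_le_mul_left _ (by omega)
      _ ≤ D := Nat.div_mul_le_self D δ
  have hli3 : LinearIndependent k
      (fun β => (⟨Ideal.Quotient.mk I (∏ j, y j ^ (m β) j), hmem β⟩ : W)) :=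
    LinearIndependent.of_comp W.subtype hli2
  have h1 := hli3.fintype_card_le_finrank
  rw [Fintype.card_fun, Fintype.card_fin, Fintype.card_fin] at h1
  have h2 : ((n : ℝ) + 1) ^ s ≤ (hF I D : ℝ) := by exact_mod_cast h1
  refine le_trans ?_ h2
  rw [← mul_pow]
  refine pow_le_pow_left₀ (by positivity) ?_ s
  rw [one_div, inv_mul_le_iff₀ hδr]
  have h3 : D < δ * (n + 1) := by
    have := Nat.lt_mul_div_succ D hδ0
    exact this
  exact_mod_cast h3

end Pool.Agent.H62.N6
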