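import Pool.Agent.H62.N6.Defs

/-! MODULE H/Noe (about 60 lines).  Noether normalisation of `R/I`, `I ≠ ⊤`, with polynomials `y` in `R`.
Mathlib: `exists_finite_inj_algHom_of_fg`, `exists_integral_inj_algHom_of_quotient` (RingTheory/NoetherNormalization):
injective `g : MvPolynomial (Fin s) k →ₐ[k] R/I` with `R/I` integral; `y i` = a lift of `g (X i)`, so `g = aeval (mk ∘ y)`; the integral equation of
`mk (X i)` is a monic `G` over `MvPolynomial (Fin s) k` with `(G.map g).eval (mk (X i)) = 0`, i.e. `(G.map (aeval y)).eval (X i) ∈ I`. -/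

set_option autoImplicit false

open MvPolynomial

namespace Pool.Agent.H62.N6

variable {k : Type} [Field k] {σ : Type} [Fintype σ]

theorem exists_noether (I : Ideal (MvPolynomial σ k)) (hI : I ≠ ⊤) :
    ∃ (s : ℕ) (y : Fin s → MvPolynomial σ k),
      AlgebraicIndependent k (fun i => Ideal.Quotient.mk I (y i)) ∧
      ∀ i : σ, ∃ G : Polynomial (MvPolynomial (Fin s) k), G.Monic ∧
        (G.map (aeval y : MvPolynomial (Fin s) k →ₐ[k] MvPolynomial σ k).toRingHom).eval (X i)
          ∈ I := by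
  have hnt : Nontrivial (MvPolynomial σ k ⧸ I) := Ideal.Quotient.nontrivial_iff.2 hI
  obtain ⟨s, g, hg, hint⟩ := exists_integral_inj_algHom_of_fg k (MvPolynomial σ k ⧸ I)
  have hy : ∀ i : Fin s, ∃ y : MvPolynomial σ k, Ideal.Quotient.mk I y = g (X i) := fun i =>
    Ideal.Quotient.mk_surjective _
  choose y hy using hy
  have hgy : ∀ P : MvPolynomial (Fin s) k, g P = Ideal.Quotient.mk I (aeval y P) := by
    intro P
    have h1 : g = (Ideal.Quotient.mkₐ k I).comp (aeval y) := by
      refine MvPolynomial.algHom_ext fun i => ?_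
      rw [AlgHom.comp_apply, aeval_X, Ideal.Quotient.mkₐ_eq_mk, hy]
    rw [h1]
    rfl
  refine ⟨s, y, ?_, ?_⟩
  · have h1 : (aeval (fun i => Ideal.Quotient.mk I (y i)) :
        MvPolynomial (Fin s) k →ₐ[k] (MvPolynomial σ k ⧸ I)) = g := by
      refine MvPolynomial.algHom_ext fun i => ?_
      rw [aeval_X, hy]
    change Function.Injective (aeval (fun i => Ideal.Quotient.mk I (y i)) :
        MvPolynomial (Fin s) k →ₐ[k] (MvPolynomial σ k ⧸ I))
    rw [h1]
    exact hg
  · intro i
    obtain ⟨G, hG, hG0⟩ := hint (Ideal.Quotient.mk I (X i))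
    refine ⟨G, hG, ?_⟩
    rw [← Ideal.Quotient.eq_zero_iff_mem, ← hG0]
    have h1 : Ideal.Quotient.mk I ((G.map (aeval y : MvPolynomial (Fin s) k →ₐ[k]
        MvPolynomial σ k).toRingHom).eval (X i)) = G.eval₂ ((Ideal.Quotient.mk I).comp
          (aeval y : MvPolynomial (Fin s) k →ₐ[k] MvPolynomial σ k).toRingHom)
          (Ideal.Quotient.mk I (X i)) := by
      rw [Polynomial.eval_map, Polynomial.hom_eval₂]
    rw [h1]
    congr 1
    exact RingHom.ext fun P => (hgy P).symm

end Pool.Agent.H62.N6
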