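import Pool.Agent.H62.N6.Defs

/-! MODULE H/Pri (about 60 lines).
`exists_prime_indep`: the multiplicative set of the `q(y)`, `q ≠ 0`, does not meet `I`; take a prime `Q ≥ I` disjoint from it
(`Ideal.exists_le_prime_disjoint`).
`trdeg_of_noether`: `P` prime, `y` independent modulo `P` and every `X i` integral over `k[y]` modulo `P`: the `y` are a transcendence
basis of `R/P`. -/

set_option autoImplicit false

open MvPolynomial

namespace Pool.Agent.H62.N6

variable {k : Type} [Field k] {σ : Type} [Fintype σ]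

theorem exists_prime_indep (I : Ideal (MvPolynomial σ k)) {s : ℕ} (y : Fin s → MvPolynomial σ k)
    (hy : AlgebraicIndependent k (fun i => Ideal.Quotient.mk I (y i))) :
    ∃ Q : Ideal (MvPolynomial σ k), Q.IsPrime ∧ I ≤ Q ∧
      AlgebraicIndependent k (fun i => Ideal.Quotient.mk Q (y i)) := by
  classical
  set S : Submonoid (MvPolynomial σ k) := (nonZeroDivisors (MvPolynomial (Fin s) k)).map
    (aeval y : MvPolynomial (Fin s) k →ₐ[k] MvPolynomial σ k) with hS
  have hmk : ∀ (J : Ideal (MvPolynomial σ k)) (q : MvPolynomial (Fin s) k),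
      aeval (fun i => Ideal.Quotient.mk J (y i)) q = Ideal.Quotient.mk J (aeval y q) := by
    intro J q
    exact (MvPolynomial.comp_aeval_apply (f := y) (Ideal.Quotient.mkₐ k J) q).symm
  have hdis : Disjoint (I : Set (MvPolynomial σ k)) (S : Set (MvPolynomial σ k)) := by
    rw [Set.disjoint_left]
    rintro x hx ⟨q, hq, rfl⟩
    have h0 : aeval (fun i => Ideal.Quotient.mk I (y i)) q = 0 := by
      rw [hmk]; exact Ideal.Quotient.eq_zero_iff_mem.2 hx
    exact nonZeroDivisors.ne_zero hq ((algebraicIndependent_iff.1 hy) q h0)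
  obtain ⟨Q, hQ, hIQ, hd⟩ := Ideal.exists_le_prime_disjoint I S hdis
  refine ⟨Q, hQ, hIQ, algebraicIndependent_iff.2 ?_⟩
  intro q hq
  by_contra hne
  rw [hmk] at hq
  exact Set.disjoint_left.1 hd (Ideal.Quotient.eq_zero_iff_mem.1 hq)
    ⟨q, mem_nonZeroDivisors_of_ne_zero hne, rfl⟩

theorem trdeg_of_noether (P : Ideal (MvPolynomial σ k)) (hP : P.IsPrime) {s : ℕ}
    (y : Fin s → MvPolynomial σ k)
    (hy : AlgebraicIndependent k (fun i => Ideal.Quotient.mk P (y i)))
    (hG : ∀ i : σ, ∃ G : Polynomial (MvPolynomial (Fin s) k), G.Monic ∧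
        (G.map (aeval y : MvPolynomial (Fin s) k →ₐ[k] MvPolynomial σ k).toRingHom).eval (X i)
          ∈ P) :
    Algebra.trdeg k (MvPolynomial σ k ⧸ P) = s := by
  classical
  haveI : IsDomain (MvPolynomial σ k ⧸ P) := Ideal.Quotient.isDomain P
  set z : Fin s → MvPolynomial σ k ⧸ P := fun i => Ideal.Quotient.mk P (y i) with hz
  have hmk : ∀ q : MvPolynomial (Fin s) k,
      Ideal.Quotient.mkₐ k P (aeval y q) = aeval z q := by
    intro q
    exact MvPolynomial.comp_aeval_apply (f := y) (Ideal.Quotient.mkₐ k P) q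
  have hrange : ∀ q : MvPolynomial (Fin s) k,
      ((Ideal.Quotient.mkₐ k P).comp (aeval y)) q ∈ Algebra.adjoin k (Set.range z) := by
    intro q
    rw [Algebra.adjoin_range_eq_range_aeval]
    exact ⟨q, (hmk q).symm⟩
  set φ : MvPolynomial (Fin s) k →ₐ[k] Algebra.adjoin k (Set.range z) :=
    ((Ideal.Quotient.mkₐ k P).comp (aeval y)).codRestrict _ hrange with hφ
  have hX : ∀ i : σ, IsIntegral (Algebra.adjoin k (Set.range z))
      (Ideal.Quotient.mk P (X i)) := by
    intro i
    obtain ⟨G, hGm, hG0⟩ := hG i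
    refine ⟨G.map φ.toRingHom, hGm.map _, ?_⟩
    have h1 : Ideal.Quotient.mk P
        ((G.map (aeval y : MvPolynomial (Fin s) k →ₐ[k] MvPolynomial σ k).toRingHom).eval (X i))
          = 0 := Ideal.Quotient.eq_zero_iff_mem.2 hG0
    rw [← Polynomial.eval₂_hom, Polynomial.eval₂_map] at h1
    rw [Polynomial.eval₂_map]
    exact h1
  have hint : ∀ a : MvPolynomial σ k, IsIntegral (Algebra.adjoin k (Set.range z))
      (Ideal.Quotient.mk P a) := by
    intro a
    induction a using MvPolynomial.induction_on with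
    | C c =>
      have h1 : Ideal.Quotient.mk P (C c) = algebraMap (Algebra.adjoin k (Set.range z))
          (MvPolynomial σ k ⧸ P) (algebraMap k _ c) := by
        rw [← IsScalarTower.algebraMap_apply]
        rfl
      rw [h1]
      exact isIntegral_algebraMap
    | add p q hp hq => rw [map_add]; exact hp.add hq
    | mul_X p i hp => rw [map_mul]; exact hp.mul (hX i)
  have halg : Algebra.IsAlgebraic (Algebra.adjoin k (Set.range z)) (MvPolynomial σ k ⧸ P) := by
    constructor
    intro a
    obtain ⟨b, rfl⟩ := Ideal.Quotient.mk_surjective a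
    exact (hint b).isAlgebraic
  have hB : IsTranscendenceBasis k z := hy.isTranscendenceBasis_iff_isAlgebraic.2 halg
  have h2 := hB.lift_cardinalMk_eq_trdeg
  simpa using h2.symm

end Pool.Agent.H62.N6
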