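import Pool.Agent.H62.N6.Defs

/-! MODULE H/Upp (about 150 lines).  Upper bound for the Hilbert function.
`G_i` monic of degree `e_i` (`e_i ≥ 1` without loss: if `G_i = 1` then `1 ∈ I`, `R/I = 0`, trivial), `E` = maximum of the total degrees of
all coefficients of the `G_i`.  Claim: every polynomial of degree `≤ D` is modulo `I` a sum
`∑_{α_i < e_i} z^α b_α(y)`, `deg b_α ≤ E D`.  Induction on the degree of a monomial: multiply `z^α b(y)` by `z_i`; if `α_i + 1 = e_i` replace
`z_i^{e_i}` by `- ∑_{j<e_i} (coeff G_i j)(y) z_i^j`.  So `hF I D ≤ (∏ e_i) * (E D + s).choose s ≤ C (D+1)^s`.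
Convenient form: let `W_D` be the `k`-span of the classes of `z^α b(y)`, `α_i < e_i`, `b` of total degree `≤ E D`; show
`mk (X i) * W_D ⊆ W_{D+1}`, `W_D ⊆ W_{D+1}`, `1 ∈ W_0`. -/

set_option autoImplicit false

open MvPolynomial

namespace Pool.Agent.H62.N6

variable {k : Type} [Field k] {σ : Type} [Fintype σ]

section Gen

variable {A : Type*} [CommRing A] [Algebra k A] {s : ℕ} (x : σ → A) (t : Fin s → A)

/-- the generators -/
def genU (α : σ → ℕ) (β : Fin s → ℕ) : A := (∏ i, x i ^ α i) * ∏ j, t j ^ β j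

/-- the span of the generators -/
def WU (k : Type) [Field k] [Algebra k A] (e : σ → ℕ) (E D : ℕ) : Submodule k A :=
  Submodule.span k (Set.range fun ab : (∀ i, Fin (e i)) × (Fin s → Fin (E * D + 1)) =>
    genU x t (fun i => (ab.1 i : ℕ)) (fun j => (ab.2 j : ℕ)))

theorem genU_mem (e : σ → ℕ) (E D : ℕ) (α : σ → ℕ) (β : Fin s → ℕ) (hα : ∀ i, α i < e i)
    (hβ : ∀ j, β j ≤ E * D) : genU x t α β ∈ WU x t k e E D := by
  refine Submodule.subset_span ⟨(fun i => ⟨α i, hα i⟩, fun j => ⟨β j, ?_⟩), rfl⟩
  have := hβ j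
  omega

theorem WU_induct (e : σ → ℕ) (E D : ℕ) (V : Submodule k A)
    (h : ∀ α β, (∀ i, α i < e i) → (∀ j, β j ≤ E * D) → genU x t α β ∈ V) :
    WU x t k e E D ≤ V := by
  unfold WU
  rw [Submodule.span_le]
  rintro _ ⟨ab, rfl⟩
  exact h _ _ (fun i => (ab.1 i).2) fun j => by have := (ab.2 j).2; omega

theorem WU_mono (e : σ → ℕ) (E D D' : ℕ) (h : D ≤ D') : WU x t k e E D ≤ WU x t k e E D' := by
  refine WU_induct x t e E D _ fun α β hα hβ => genU_mem x t e E D' α β hα fun j => ?_
  exact (hβ j).trans (Nat.mul_le_mul_left _ h)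

theorem WU_finrank (e : σ → ℕ) (E D : ℕ) :
    Module.finrank k (WU x t k e E D) ≤ (∏ i, e i) * (E * D + 1) ^ s := by
  classical
  have := finrank_range_le_card (R := k)
    (fun ab : (∀ i, Fin (e i)) × (Fin s → Fin (E * D + 1)) =>
    genU x t (fun i => (ab.1 i : ℕ)) (fun j => (ab.2 j : ℕ)))
  refine le_trans this (le_of_eq ?_)
  rw [Fintype.card_prod, Fintype.card_pi, Fintype.card_pi]
  simp

theorem WU_finite (e : σ → ℕ) (E D : ℕ) : Module.Finite k (WU x t k e E D) := by
  unfold WU
  exact FiniteDimensional.span_of_finite k (Set.finite_range _)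

theorem genU_update [DecidableEq σ] (α : σ → ℕ) (β : Fin s → ℕ) (i : σ) (l : ℕ) :
    genU x t (Function.update α i l) β = x i ^ l * genU x t (Function.update α i 0) β := by
  unfold genU
  have h : ∀ l, ∏ m, x m ^ Function.update α i l m =
      x i ^ l * ∏ m ∈ Finset.univ.erase i, x m ^ α m := by
    intro l
    rw [← Finset.mul_prod_erase _ _ (Finset.mem_univ i), Function.update_self]
    congr 1
    refine Finset.prod_congr rfl fun m hm => ?_
    rw [Function.update_of_ne (Finset.ne_of_mem_erase hm)]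
  rw [h l, h 0]
  ring

theorem genU_update_self [DecidableEq σ] (α : σ → ℕ) (β : Fin s → ℕ) (i : σ) :
    genU x t α β = x i ^ α i * genU x t (Function.update α i 0) β := by
  have h := genU_update x t α β i (α i)
  rwa [Function.update_eq_self] at h

/-- multiplication by a coefficient -/
theorem coeff_mul_gen (e : σ → ℕ) (E D : ℕ) (ρ : MvPolynomial (Fin s) k →ₐ[k] A)
    (hρ : ∀ j, ρ (X j) = t j) (c : MvPolynomial (Fin s) k)
    (hc : ∀ m ∈ c.support, ∀ j, m j ≤ E) (α : σ → ℕ) (β : Fin s → ℕ) (hα : ∀ i, α i < e i)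
    (hβ : ∀ j, β j ≤ E * D) : ρ c * genU x t α β ∈ WU x t k e E (D + 1) := by
  rw [c.as_sum, map_sum, Finset.sum_mul]
  refine Submodule.sum_mem _ fun m hm => ?_
  have h1 : ρ (monomial m (c.coeff m)) = c.coeff m • ∏ j, t j ^ m j := by
    rw [monomial_eq, map_mul, ← algebraMap_eq, AlgHom.commutes, Algebra.smul_def,
      Finsupp.prod_fintype _ _ fun _ => pow_zero _, map_prod]
    congr 1
    refine Finset.prod_congr rfl fun j _ => ?_
    rw [map_pow, hρ]
  rw [h1, smul_mul_assoc]
  refine Submodule.smul_mem _ _ ?_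
  have h2 : (∏ j, t j ^ m j) * genU x t α β = genU x t α (fun j => m j + β j) := by
    unfold genU
    have : ∏ j, t j ^ (m j + β j) = (∏ j, t j ^ m j) * ∏ j, t j ^ β j := by
      rw [← Finset.prod_mul_distrib]
      exact Finset.prod_congr rfl fun j _ => pow_add _ _ _
    rw [this]
    ring
  rw [h2]
  refine genU_mem x t e E (D + 1) α _ hα fun j => ?_
  have h3 := hc m hm j
  have h4 := hβ j
  have h5 : E * (D + 1) = E * D + E := by ring
  omega

/-- multiplication by `x i` -/
theorem mul_x_mem (e : σ → ℕ) (E D : ℕ) (ρ : MvPolynomial (Fin s) k →ₐ[k] A)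
    (hρ : ∀ j, ρ (X j) = t j) (i : σ) (c : ℕ → MvPolynomial (Fin s) k)
    (hc : ∀ l ∈ Finset.range (e i), ∀ m ∈ (c l).support, ∀ j, m j ≤ E)
    (hroot : x i ^ e i = - ∑ l ∈ Finset.range (e i), ρ (c l) * x i ^ l) :
    ∀ w ∈ WU x t k e E D, x i * w ∈ WU x t k e E (D + 1) := by
  classical
  have h1 : WU x t k e E D ≤ (WU x t k e E (D + 1)).comap (LinearMap.mulLeft k (x i)) := by
    refine WU_induct x t e E D _ fun α β hα hβ => ?_
    rw [Submodule.mem_comap, LinearMap.mulLeft_apply]
    by_cases h : α i + 1 < e i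
    · rw [genU_update_self x t α β i, ← mul_assoc, ← pow_succ', ← genU_update]
      refine genU_mem x t e E (D + 1) _ β (fun m => ?_) fun j =>
        (hβ j).trans (Nat.mul_le_mul_left _ (Nat.le_succ D))
      by_cases hm : m = i
      · subst hm
        rw [Function.update_self]
        exact h
      · rw [Function.update_of_ne hm]
        exact hα m
    · have h2 : α i + 1 = e i := by
        have := hα i
        omega
      rw [genU_update_self x t α β i, ← mul_assoc, ← pow_succ', h2, hroot, neg_mul,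
        Finset.sum_mul]
      refine Submodule.neg_mem _ (Submodule.sum_mem _ fun l hl => ?_)
      rw [mul_assoc, ← genU_update]
      refine coeff_mul_gen x t e E D ρ hρ _ (hc l hl) _ β (fun m => ?_) hβ
      by_cases hm : m = i
      · subst hm
        rw [Function.update_self]
        exact Finset.mem_range.1 hl
      · rw [Function.update_of_ne hm]
        exact hα m
  exact fun w hw => h1 hw

end Gen

theorem upper_of_integral (I : Ideal (MvPolynomial σ k)) {s : ℕ} (y : Fin s → MvPolynomial σ k)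
    (hG : ∀ i : σ, ∃ G : Polynomial (MvPolynomial (Fin s) k), G.Monic ∧
        (G.map (aeval y : MvPolynomial (Fin s) k →ₐ[k] MvPolynomial σ k).toRingHom).eval (X i)
          ∈ I) : BigO (hF I) s := by
  classical
  choose G0 hG0 hG1 using hG
  -- positive degrees
  set G : σ → Polynomial (MvPolynomial (Fin s) k) := fun i => G0 i * Polynomial.X with hGdef
  have hGm : ∀ i, (G i).Monic := fun i => (hG0 i).mul Polynomial.monic_X
  set A := MvPolynomial σ k ⧸ I with hA
  set ρ : MvPolynomial (Fin s) k →ₐ[k] A := (Ideal.Quotient.mkₐ k I).comp (aeval y) with hρ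
  set x : σ → A := fun i => Ideal.Quotient.mk I (X i) with hx
  set t : Fin s → A := fun j => Ideal.Quotient.mk I (y j) with ht
  have hρt : ∀ j, ρ (X j) = t j := by
    intro j
    rw [hρ, AlgHom.comp_apply, aeval_X]
    rfl
  set e : σ → ℕ := fun i => (G i).natDegree with he
  have hepos : ∀ i, 0 < e i := by
    intro i
    simp only [he, hGdef]
    rw [(hG0 i).natDegree_mul Polynomial.monic_X, Polynomial.natDegree_X]
    omega
  -- the equation
  have hroot : ∀ i, x i ^ e i = - ∑ l ∈ Finset.range (e i), ρ ((G i).coeff l) * x i ^ l := by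
    intro i
    have h1 : Polynomial.eval₂ ρ.toRingHom (x i) (G0 i) = 0 := by
      have h2 := hG1 i
      rw [← Ideal.Quotient.eq_zero_iff_mem, Polynomial.eval_map, Polynomial.hom_eval₂] at h2
      exact h2
    have h3 : Polynomial.eval₂ ρ.toRingHom (x i) (G i) = 0 := by
      rw [hGdef]
      simp only
      rw [Polynomial.eval₂_mul, h1, zero_mul]
    rw [Polynomial.eval₂_eq_sum_range, Finset.sum_range_succ, (hGm i).coeff_natDegree, map_one,
      one_mul] at h3
    exact eq_neg_of_add_eq_zero_right h3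
  -- the bound of the exponents
  obtain ⟨E, hE⟩ : ∃ E : ℕ, ∀ i, ∀ l ∈ Finset.range (e i), ∀ m ∈ ((G i).coeff l).support,
      ∀ j, m j ≤ E := by
    refine ⟨∑ i, ∑ l ∈ Finset.range (e i), ∑ m ∈ ((G i).coeff l).support, ∑ j, m j, ?_⟩
    intro i l hl m hm j
    calc m j ≤ ∑ j, m j := Finset.single_le_sum (f := fun j => m j) (fun _ _ => Nat.zero_le _)
          (Finset.mem_univ j)
      _ ≤ ∑ m ∈ ((G i).coeff l).support, ∑ j, m j :=
          Finset.single_le_sum (f := fun m : Fin s →₀ ℕ => ∑ j, m j) (fun _ _ => Nat.zero_le _) hm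
      _ ≤ ∑ l ∈ Finset.range (e i), ∑ m ∈ ((G i).coeff l).support, ∑ j, m j :=
          Finset.single_le_sum (f := fun l => ∑ m ∈ ((G i).coeff l).support, ∑ j, m j)
            (fun _ _ => Nat.zero_le _) hl
      _ ≤ _ := Finset.single_le_sum
            (f := fun i => ∑ l ∈ Finset.range (e i), ∑ m ∈ ((G i).coeff l).support, ∑ j, m j)
            (fun _ _ => Nat.zero_le _) (Finset.mem_univ i)
  -- multiplication by `x i`
  have hmul : ∀ i D, ∀ w ∈ WU x t k e E D, x i * w ∈ WU x t k e E (D + 1) :=
    fun i D => mul_x_mem x t e E D ρ hρt i (fun l => (G i).coeff l) (hE i) (hroot i)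
  -- monomials
  have hmon : ∀ n, ∀ m : σ →₀ ℕ, m.degree ≤ n →
      Ideal.Quotient.mk I (monomial m (1 : k)) ∈ WU x t k e E n := by
    intro n
    induction n with
    | zero =>
      intro m hm
      have hm0 : m = 0 := (Finsupp.degree_eq_zero_iff m).1 (Nat.le_zero.1 hm)
      subst hm0
      have := genU_mem (k := k) x t e E 0 (fun _ => 0) (fun _ => 0) hepos (fun _ => Nat.zero_le _)
      have h1 : genU x t (fun _ => 0) (fun _ => 0) = (1 : A) := by
        unfold genU
        simp
      rw [h1] at this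
      exact this
    | succ n ih =>
      intro m hm
      by_cases hm0 : m = 0
      · exact WU_mono x t e E n (n + 1) (Nat.le_succ n) (ih m (by rw [hm0]; simp))
      · obtain ⟨i, hi⟩ : ∃ i, m i ≠ 0 := by
          by_contra hcon
          push Not at hcon
          exact hm0 (Finsupp.ext hcon)
        obtain ⟨m', rfl⟩ : ∃ m', m = Finsupp.single i 1 + m' := by
          refine ⟨m - Finsupp.single i 1, ?_⟩
          rw [add_tsub_cancel_of_le]
          rw [Finsupp.single_le_iff]
          omega
        have h1 : monomial (Finsupp.single i 1 + m') (1 : k) = X i * monomial m' 1 := by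
          rw [X, monomial_mul, one_mul]
        rw [h1, map_mul]
        refine hmul i n _ (ih m' ?_)
        rw [map_add, Finsupp.degree_single] at hm
        omega
  have hincl : ∀ D, (restrictTotalDegree σ k D).map (Ideal.Quotient.mkₐ k I).toLinearMap ≤
      WU x t k e E D := by
    intro D
    rw [Submodule.map_le_iff_le_comap]
    intro f hf
    rw [Submodule.mem_comap, f.as_sum, map_sum]
    refine Submodule.sum_mem _ fun m hm => ?_
    have h1 : monomial m (f.coeff m) = f.coeff m • monomial m (1 : k) := by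
      rw [smul_monomial, smul_eq_mul, mul_one]
    rw [h1, map_smul]
    refine Submodule.smul_mem _ _ (hmon D m ?_)
    rw [mem_restrictTotalDegree] at hf
    exact (le_totalDegree hm).trans hf
  refine ⟨((∏ i, e i : ℕ) : ℝ) * ((E : ℝ) + 1) ^ s, fun D => ?_⟩
  have h1 : hF I D ≤ (∏ i, e i) * (E * D + 1) ^ s := by
    have := WU_finite (k := k) x t e E D
    exact (Submodule.finrank_mono (hincl D)).trans (WU_finrank x t e E D)
  have h2 : (hF I D : ℝ) ≤ ((∏ i, e i : ℕ) : ℝ) * ((E : ℝ) * D + 1) ^ s := by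
    exact_mod_cast h1
  refine h2.trans ?_
  rw [mul_assoc, ← mul_pow]
  refine mul_le_mul_of_nonneg_left (pow_le_pow_left₀ (by positivity) ?_ s) (Nat.cast_nonneg _)
  have h3 : (0 : ℝ) ≤ E := Nat.cast_nonneg _
  have h4 : (0 : ℝ) ≤ D := Nat.cast_nonneg _
  nlinarith

end Pool.Agent.H62.N6
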